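import Pool.Agent.Y466.TQ.Stm2

set_option autoImplicit false

namespace Pool.Agent.Y115.TQ

open Matrix
open Pool.Agent.Y466.TW (Cong)
open Pool.Agent.Y466.TQ

/-- the value of the quadratic form of a real matrix -/
theorem form_apply {ι : Type} [Fintype ι] [DecidableEq ι] (A : Matrix ι ι ℝ) (x : ι → ℝ) :
    A.toQuadraticForm' x = x ⬝ᵥ A *ᵥ x := by
  simp [Matrix.toQuadraticForm', Matrix.toLinearMap₂'_apply']

/-- the matrices over the real numbers -/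
theorem map_cong {α β : Type} [Fintype α] [DecidableEq α] [Fintype β] [DecidableEq β]
    (G : Matrix α α ℤ) (Q : Matrix α β ℤ) (x : β → ℝ) :
    (Q.map (Int.cast : ℤ → ℝ) *ᵥ x) ⬝ᵥ (G.map (Int.cast : ℤ → ℝ)) *ᵥ
      (Q.map (Int.cast : ℤ → ℝ) *ᵥ x) = x ⬝ᵥ ((Qᵀ * G * Q).map (Int.cast : ℤ → ℝ)) *ᵥ x := by
  have h1 : (Qᵀ * G * Q).map (Int.cast : ℤ → ℝ) =
      (Q.map (Int.cast : ℤ → ℝ))ᵀ * G.map (Int.cast : ℤ → ℝ) * Q.map (Int.cast : ℤ → ℝ) := by
    have h2 := Matrix.map_mul (L := Qᵀ * G) (M := Q) (f := Int.castRingHom ℝ)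
    have h3 := Matrix.map_mul (L := Qᵀ) (M := G) (f := Int.castRingHom ℝ)
    have h4 : (Qᵀ * G * Q).map (Int.cast : ℤ → ℝ) = (Qᵀ * G * Q).map (Int.castRingHom ℝ) := rfl
    rw [h4, h2, h3]
    rfl
  rw [h1, ← Matrix.mulVec_mulVec, ← Matrix.mulVec_mulVec, Matrix.dotProduct_mulVec x,
    Matrix.vecMul_transpose]

theorem map_inv {α β : Type} [Fintype α] [DecidableEq α] [Fintype β] [DecidableEq β]
    {Q : Matrix α β ℤ} {R : Matrix β α ℤ} (h : Q * R = 1) :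
    Q.map (Int.cast : ℤ → ℝ) * R.map (Int.cast : ℤ → ℝ) = 1 := by
  have h2 := Matrix.map_mul (L := Q) (M := R) (f := Int.castRingHom ℝ)
  rw [h] at h2
  have h3 : (1 : Matrix α α ℤ).map (Int.castRingHom ℝ) = 1 :=
    Matrix.map_one _ (map_zero _) (map_one _)
  rw [h3] at h2
  exact h2.symm

theorem csig : CSIG := by
  intro α β _ _ _ _ G G' h
  obtain ⟨Q, R, h1, h2, h3⟩ := h
  have he : QuadraticMap.Equivalent ((G'.map (Int.cast : ℤ → ℝ)).toQuadraticForm')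
      ((G.map (Int.cast : ℤ → ℝ)).toQuadraticForm') := by
    refine ⟨{ Matrix.toLin'OfInv (map_inv h2) (map_inv h1) with map_app' := ?_ }⟩
    intro x
    change (G.map (Int.cast : ℤ → ℝ)).toQuadraticForm' (Q.map (Int.cast : ℤ → ℝ) *ᵥ x) =
      (G'.map (Int.cast : ℤ → ℝ)).toQuadraticForm' x
    rw [form_apply, form_apply, map_cong, h3]
  unfold signature
  rw [he.sigPos_eq, he.sigNeg_eq]

end Pool.Agent.Y115.TQ
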